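import Pool.Agent.XW.Defs

/-!
Project XW, the characters of the even discriminants: statements.
`4 d = sg δ Z * pe δ Z` is the fundamental discriminant, `ch δ Z` its Kronecker symbol.
-/

set_option autoImplicit false

namespace Pool.Agent.XW.MT

open Pool.Agent.XW

/-- CHE: the Kronecker symbol of an even fundamental discriminant is a primitive character -/
def S_CHE : Prop := ∀ δ : ℤ, Dt δ → ∀ Z : Finset ℕ, (∀ p ∈ Z, p.Prime) → 2 ∈ Z →
  ∃ χ : DirichletCharacter ℂ (pe δ Z), χ.IsPrimitive ∧ χ⁻¹ = χ ∧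
    ∀ n : ℕ, χ (n : ZMod (pe δ Z)) = ((ch δ Z n : ℤ) : ℂ)

/-- REC: quadratic reciprocity -/
def S_REC : Prop := ∀ δ : ℤ, Dt δ → ∀ Z : Finset ℕ, (∀ p ∈ Z, p.Prime) → 2 ∈ Z → ∀ d : ℤ,
  4 * d = sg δ Z * pe δ Z → ∀ p : ℕ, p.Prime → p ≠ 2 → ¬ p ∣ pe δ Z → ch δ Z p = jacobiSym d p

end Pool.Agent.XW.MT
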