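import Mathlib
import Pool.Agent.XW.MT.Chs

/-!
# The Kronecker symbol of an even fundamental discriminant is a primitive character
-/

set_option autoImplicit false

namespace Pool.Agent.XW.MT

open Pool.Agent.XW Finset

namespace CHE

theorem md_pos {δ : ℤ} (hδ : Dt δ) {p : ℕ} (hp : p.Prime) : 0 < md δ p := by
  unfold md
  split_ifs with h
  · rcases hδ with h1 | h1 | h1 <;> rw [h1] <;> decide
  · exact hp.pos

theorem pe_pos {δ : ℤ} (hδ : Dt δ) {Z : Finset ℕ} (hZ : ∀ p ∈ Z, p.Prime) : 0 < pe δ Z :=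
  Finset.prod_pos fun p hp => md_pos hδ (hZ p hp)

/-- a prime divisor of the modulus at `p` is `p` -/
theorem dvd_md {δ : ℤ} (hδ : Dt δ) {p r : ℕ} (hp : p.Prime) (hr : r.Prime) (h : r ∣ md δ p) :
    r = p := by
  unfold md at h
  split_ifs at h with h2
  · rw [h2]
    have h3 : r ∣ 2 ^ 3 := by
      rcases hδ with h1 | h1 | h1
      · rw [h1] at h
        exact h.trans (by decide)
      · rw [h1] at h
        exact h.trans (by decide)
      · rw [h1] at h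
        exact h.trans (by decide)
    exact (Nat.prime_dvd_prime_iff_eq hr Nat.prime_two).1 (hr.dvd_of_dvd_pow h3)
  · exact (Nat.prime_dvd_prime_iff_eq hr hp).1 h

theorem p_dvd_md {δ : ℤ} (hδ : Dt δ) {p : ℕ} : p ∣ md δ p := by
  unfold md
  split_ifs with h2
  · rw [h2]
    rcases hδ with h1 | h1 | h1 <;> rw [h1] <;> decide
  · exact dvd_rfl

theorem c2_mod {δ : ℤ} (hδ : Dt δ) {a b : ℤ} (h : (δ.natAbs : ℤ) ∣ a - b) : c2 δ a = c2 δ b := by
  unfold c2
  rcases hδ with rfl | rfl | rfl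
  · rw [if_pos rfl, if_pos rfl]
    congr 1
    have h1 : ((4 : ℕ) : ℤ) ∣ b - a := by
      have h2 : (4 : ℤ) ∣ a - b := h
      have h3 : b - a = -(a - b) := by ring
      rw [h3]
      exact (dvd_neg.2 h2)
    exact (ZMod.intCast_eq_intCast_iff_dvd_sub a b 4).2 h1
  · rw [if_neg (by norm_num), if_pos rfl, if_neg (by norm_num), if_pos rfl]
    congr 1
    have h1 : ((8 : ℕ) : ℤ) ∣ b - a := by
      have h2 : (8 : ℤ) ∣ a - b := h
      have h3 : b - a = -(a - b) := by ring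
      rw [h3]
      exact (dvd_neg.2 h2)
    exact (ZMod.intCast_eq_intCast_iff_dvd_sub a b 8).2 h1
  · rw [if_neg (by norm_num), if_neg (by norm_num), if_neg (by norm_num), if_neg (by norm_num)]
    congr 1
    have h1 : ((8 : ℕ) : ℤ) ∣ b - a := by
      have h2 : (8 : ℤ) ∣ a - b := h
      have h3 : b - a = -(a - b) := by ring
      rw [h3]
      exact (dvd_neg.2 h2)
    exact (ZMod.intCast_eq_intCast_iff_dvd_sub a b 8).2 h1

theorem c2_mul (δ a b : ℤ) : c2 δ (a * b) = c2 δ a * c2 δ b := by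
  unfold c2
  split_ifs
  · rw [Int.cast_mul, map_mul]
  · rw [Int.cast_mul, map_mul]
  · rw [Int.cast_mul, map_mul]

theorem c2_one (δ : ℤ) : c2 δ 1 = 1 := by
  unfold c2
  split_ifs
  · rw [Int.cast_one, map_one]
  · rw [Int.cast_one, map_one]
  · rw [Int.cast_one, map_one]

theorem c2_even {δ : ℤ} {n : ℕ} (hn : 2 ∣ n) : c2 δ (n : ℤ) = 0 := by
  have h0 : n % 2 = 0 := Nat.mod_eq_zero_of_dvd hn
  unfold c2
  split_ifs
  · rw [Int.cast_natCast, ZMod.χ₄_nat_eq_if_mod_four, if_pos h0]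
  · rw [Int.cast_natCast, ZMod.χ₈_nat_eq_if_mod_eight, if_pos h0]
  · rw [Int.cast_natCast, ZMod.χ₈'_nat_eq_if_mod_eight, if_pos h0]

theorem c2_tri (δ a : ℤ) : c2 δ a = 0 ∨ c2 δ a = 1 ∨ c2 δ a = -1 := by
  unfold c2
  split_ifs
  · generalize (a : ZMod 4) = x
    revert x
    decide
  · generalize (a : ZMod 8) = x
    revert x
    decide
  · generalize (a : ZMod 8) = x
    revert x
    decide

theorem sy_mod {δ : ℤ} (hδ : Dt δ) {p : ℕ} {a b : ℤ} (h : (md δ p : ℤ) ∣ a - b) :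
    sy δ p a = sy δ p b := by
  unfold sy
  unfold md at h
  split_ifs at h ⊢ with h2
  · exact c2_mod hδ h
  · rw [jacobiSym.mod_left a, jacobiSym.mod_left b]
    congr 1
    exact ((Int.modEq_iff_dvd.2 h).symm : a ≡ b [ZMOD p])

theorem sy_mul (δ : ℤ) (p : ℕ) (a b : ℤ) : sy δ p (a * b) = sy δ p a * sy δ p b := by
  unfold sy
  split_ifs
  · exact c2_mul δ a b
  · exact jacobiSym.mul_left a b p

theorem sy_one (δ : ℤ) (p : ℕ) : sy δ p 1 = 1 := by
  unfold sy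
  split_ifs
  · exact c2_one δ
  · exact jacobiSym.one_left p

theorem sy_zero {δ : ℤ} {p n : ℕ} (hp : p.Prime) (h : p ∣ n) : sy δ p (n : ℤ) = 0 := by
  unfold sy
  split_ifs with h2
  · exact c2_even (h2 ▸ h)
  · have hnz : NeZero p := ⟨hp.ne_zero⟩
    rw [jacobiSym.eq_zero_iff_not_coprime]
    intro h1
    rw [Int.gcd_natCast_natCast] at h1
    have h3 : p ∣ Nat.gcd n p := Nat.dvd_gcd h dvd_rfl
    rw [h1] at h3
    exact hp.one_lt.ne' (Nat.dvd_one.1 h3)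

theorem sy_tri (δ : ℤ) (p : ℕ) (a : ℤ) : sy δ p a = 0 ∨ sy δ p a = 1 ∨ sy δ p a = -1 := by
  unfold sy
  split_ifs
  · exact c2_tri δ a
  · exact jacobiSym.trichotomy a p

theorem md_dvd_pe {δ : ℤ} {Z : Finset ℕ} {p : ℕ} (hp : p ∈ Z) : md δ p ∣ pe δ Z :=
  Finset.dvd_prod_of_mem _ hp

theorem ch_mod {δ : ℤ} (hδ : Dt δ) {Z : Finset ℕ} {a b : ℤ} (h : (pe δ Z : ℤ) ∣ a - b) :
    ch δ Z a = ch δ Z b :=
  Finset.prod_congr rfl fun p hp =>
    sy_mod hδ ((Int.natCast_dvd_natCast.2 (md_dvd_pe hp)).trans h)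

theorem ch_mul (δ : ℤ) (Z : Finset ℕ) (a b : ℤ) : ch δ Z (a * b) = ch δ Z a * ch δ Z b := by
  unfold ch
  rw [← Finset.prod_mul_distrib]
  exact Finset.prod_congr rfl fun p _ => sy_mul δ p a b

theorem ch_one (δ : ℤ) (Z : Finset ℕ) : ch δ Z 1 = 1 :=
  Finset.prod_eq_one fun q _ => sy_one δ q

theorem ch_tri (δ : ℤ) (Z : Finset ℕ) (a : ℤ) : ch δ Z a = 0 ∨ ch δ Z a = 1 ∨ ch δ Z a = -1 := by
  unfold ch
  induction Z using Finset.induction_on with
  | empty => right; left; simp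
  | insert p s hp ih =>
    rw [Finset.prod_insert hp]
    rcases sy_tri δ p a with h1 | h1 | h1 <;> rcases ih with h2 | h2 | h2 <;> rw [h1, h2] <;> norm_num

theorem ch_zero {δ : ℤ} (hδ : Dt δ) {Z : Finset ℕ} (hZ : ∀ p ∈ Z, p.Prime) {n : ℕ}
    (h : ¬ Nat.Coprime n (pe δ Z)) : ch δ Z (n : ℤ) = 0 := by
  obtain ⟨r, hr, hrn, hrp⟩ := Nat.Prime.not_coprime_iff_dvd.1 h
  unfold pe at hrp
  obtain ⟨p, hp, hrp⟩ := (hr.prime.dvd_finsetProd_iff _).1 hrp
  have h1 := dvd_md hδ (hZ p hp) hr hrp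
  unfold ch
  exact Finset.prod_eq_zero hp (sy_zero (hZ p hp) (h1 ▸ hrn))

/-- there is an element which is `1` modulo the modulus over `p` with symbol `-1` -/
theorem exists_g {δ : ℤ} (hδ : Dt δ) {p : ℕ} (hp : p.Prime) :
    ∃ g : ℕ, sy δ p (g : ℤ) = -1 ∧ g ≡ 1 [MOD md δ p / p] := by
  by_cases h2 : p = 2
  · subst h2
    unfold sy md
    rw [if_pos rfl]
    rcases hδ with rfl | rfl | rfl
    · refine ⟨3, ?_, ?_⟩
      · rw [if_pos rfl]
        unfold c2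
        rw [if_pos rfl]
        decide
      · decide
    · refine ⟨5, ?_, ?_⟩
      · rw [if_pos rfl]
        unfold c2
        rw [if_neg (by norm_num), if_pos rfl]
        decide
      · decide
    · refine ⟨5, ?_, ?_⟩
      · rw [if_pos rfl]
        unfold c2
        rw [if_neg (by norm_num), if_neg (by norm_num)]
        decide
      · decide
  · have hfact : Fact p.Prime := ⟨hp⟩
    have hchar : ringChar (ZMod p) ≠ 2 := by
      rw [ZMod.ringChar_zmod_n]; exact h2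
    obtain ⟨a, ha⟩ := quadraticChar_exists_neg_one hchar
    refine ⟨a.val, ?_, ?_⟩
    · unfold sy
      rw [if_neg h2, ← jacobiSym.legendreSym.to_jacobiSym, legendreSym]
      simpa using ha
    · unfold md
      rw [if_neg h2, Nat.div_self hp.pos]
      exact Nat.modEq_one

theorem cop_md {δ : ℤ} (hδ : Dt δ) {Z : Finset ℕ} (hZ : ∀ p ∈ Z, p.Prime) {p : ℕ} (hp : p ∈ Z) :
    Nat.Coprime (md δ p) (∏ q ∈ Z.erase p, md δ q) := by
  refine Nat.Coprime.prod_right fun q hq => ?_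
  have hq' := Finset.mem_erase.1 hq
  refine Nat.coprime_of_dvd fun r hr h1 h2 => ?_
  have h3 := dvd_md hδ (hZ p hp) hr h1
  have h4 := dvd_md hδ (hZ q hq'.2) hr h2
  exact hq'.1 (h4.symm.trans h3)

theorem exists_neg_one {δ : ℤ} (hδ : Dt δ) {Z : Finset ℕ} (hZ : ∀ p ∈ Z, p.Prime) {p : ℕ}
    (hp : p.Prime) (hpd : p ∣ pe δ Z) :
    ∃ n : ℕ, n ≡ 1 [MOD pe δ Z / p] ∧ ch δ Z (n : ℤ) = -1 := by
  have hpZ : p ∈ Z := by
    unfold pe at hpd
    obtain ⟨q, hq, hrp⟩ := (hp.prime.dvd_finsetProd_iff _).1 hpd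
    rw [dvd_md hδ (hZ q hq) hp hrp]
    exact hq
  obtain ⟨g, hg, hg1⟩ := exists_g hδ hp
  have hcop := cop_md hδ hZ hpZ
  obtain ⟨n, hn1, hn2⟩ := Nat.chineseRemainder hcop g 1
  refine ⟨n, ?_, ?_⟩
  · obtain ⟨k, hk⟩ := p_dvd_md hδ (p := p)
    have h1 : md δ p / p = k := by rw [hk, Nat.mul_div_cancel_left _ hp.pos]
    have h2 : pe δ Z / p = k * ∏ q ∈ Z.erase p, md δ q := by
      unfold pe
      rw [← Finset.mul_prod_erase Z _ hpZ, hk, mul_assoc, Nat.mul_div_cancel_left _ hp.pos]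
    rw [h2]
    rw [hk] at hn1 hcop
    rw [h1] at hg1
    have h3 : Nat.Coprime k (∏ q ∈ Z.erase p, md δ q) := Nat.Coprime.coprime_mul_left hcop
    refine (Nat.modEq_and_modEq_iff_modEq_mul h3).1 ⟨?_, hn2⟩
    exact (Nat.ModEq.of_mul_left p hn1).trans hg1
  · unfold ch
    rw [← Finset.mul_prod_erase Z _ hpZ]
    have h1 : sy δ p (n : ℤ) = -1 := by
      rw [← hg]
      apply sy_mod hδ
      exact (Nat.modEq_iff_dvd.1 hn1.symm)
    have h2 : ∏ q ∈ Z.erase p, sy δ q (n : ℤ) = 1 := by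
      refine Finset.prod_eq_one fun q hq => ?_
      rw [← sy_one δ q]
      apply sy_mod hδ
      have h3 : ((∏ q ∈ Z.erase p, md δ q : ℕ) : ℤ) ∣ (n : ℤ) - ((1 : ℕ) : ℤ) :=
        Nat.modEq_iff_dvd.1 hn2.symm
      rw [Nat.cast_one] at h3
      exact (Int.natCast_dvd_natCast.2 (Finset.dvd_prod_of_mem (fun q => md δ q) hq)).trans h3
    rw [h1, h2, mul_one]

theorem val_mod {δ : ℤ} (hδ : Dt δ) (Z : Finset ℕ) (n : ℕ) :
    ch δ Z ((n % pe δ Z : ℕ) : ℤ) = ch δ Z (n : ℤ) := by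
  apply ch_mod hδ
  have h1 : n % pe δ Z ≡ n [MOD pe δ Z] := Nat.mod_modEq n (pe δ Z)
  exact Nat.modEq_iff_dvd.1 h1.symm

/-- The character. -/
noncomputable def chd {δ : ℤ} (hδ : Dt δ) (Z : Finset ℕ) (hZ : ∀ p ∈ Z, p.Prime) :
    DirichletCharacter ℂ (pe δ Z) where
  toFun a := ((ch δ Z (a.val : ℤ) : ℤ) : ℂ)
  map_one' := by
    have h : ch δ Z (((1 : ZMod (pe δ Z)).val : ℕ) : ℤ) = 1 := by
      rw [ZMod.val_one_eq_one_mod, val_mod hδ]
      exact_mod_cast ch_one δ Z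
    rw [h]
    simp
  map_mul' a b := by
    rw [ZMod.val_mul, val_mod hδ]
    push_cast
    rw [ch_mul]
    push_cast
    ring
  map_nonunit' a ha := by
    have hnz : NeZero (pe δ Z) := ⟨(pe_pos hδ hZ).ne'⟩
    have h : ch δ Z ((a.val : ℕ) : ℤ) = 0 := by
      apply ch_zero hδ hZ
      intro h2
      apply ha
      rw [← ZMod.natCast_zmod_val a]
      exact (ZMod.isUnit_iff_coprime a.val (pe δ Z)).2 h2
    rw [h]
    simp

theorem chd_nat {δ : ℤ} (hδ : Dt δ) (Z : Finset ℕ) (hZ : ∀ p ∈ Z, p.Prime) (n : ℕ) :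
    chd hδ Z hZ (n : ZMod (pe δ Z)) = ((ch δ Z n : ℤ) : ℂ) := by
  change ((ch δ Z (((n : ZMod (pe δ Z)).val : ℕ) : ℤ) : ℤ) : ℂ) = _
  rw [ZMod.val_natCast, val_mod hδ]

/-- A character modulo `N` is primitive if for every prime `p` dividing `N` it takes the value `-1`
at an element which is `1` modulo `N / p`. -/
theorem primitive_of {N : ℕ} (hN0 : 0 < N) (χ : DirichletCharacter ℂ N)
    (h : ∀ p : ℕ, p.Prime → p ∣ N → ∃ n : ℕ, n ≡ 1 [MOD N / p] ∧ χ (n : ZMod N) = -1) :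
    χ.IsPrimitive := by
  have hnz : NeZero N := ⟨hN0.ne'⟩
  unfold DirichletCharacter.IsPrimitive
  by_contra hne
  have hcd : χ.conductor ∣ N := DirichletCharacter.conductor_dvd_level _
  obtain ⟨k, hk⟩ := hcd
  have hk1 : k ≠ 1 := by
    rintro rfl
    apply hne
    rw [mul_one] at hk
    exact hk.symm
  obtain ⟨p, hp, hpk⟩ := Nat.exists_prime_and_dvd hk1
  have hpN : p ∣ N := hk ▸ (hpk.mul_left _)
  obtain ⟨n, hn1, hn2⟩ := h p hp hpN
  have hcd2 : χ.conductor ∣ N / p := by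
    obtain ⟨j, hj⟩ := hpk
    refine ⟨j, ?_⟩
    apply Nat.div_eq_of_eq_mul_left hp.pos
    calc N = χ.conductor * k := hk
      _ = χ.conductor * j * p := by rw [hj]; ring
  have hfac := χ.factorsThrough_conductor
  obtain ⟨hdvd, χ₀, hχ₀⟩ := hfac
  have hunit : IsUnit (n : ZMod N) := by
    by_contra hu
    have h1 := χ.map_nonunit hu
    rw [hn2] at h1
    norm_num at h1
  have h1 : χ (n : ZMod N) = χ₀ ((n : ZMod N).cast : ZMod χ.conductor) := by
    obtain ⟨u, hu⟩ := hunit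
    rw [← hu]
    conv_lhs => rw [hχ₀]
    exact DirichletCharacter.changeLevel_eq_cast_of_dvd χ₀ hdvd u
  have h2 : ((n : ZMod N).cast : ZMod χ.conductor) = 1 := by
    rw [ZMod.cast_natCast hdvd]
    have h3 : n ≡ 1 [MOD χ.conductor] := Nat.ModEq.of_dvd hcd2 hn1
    have := (ZMod.natCast_eq_natCast_iff n 1 χ.conductor).2 h3
    rw [this]; simp
  rw [h2, map_one, hn2] at h1
  norm_num at h1

end CHE

open CHE

theorem t_CHE : S_CHE := by
  intro δ hδ Z hZ _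
  have hnz : NeZero (pe δ Z) := ⟨(pe_pos hδ hZ).ne'⟩
  refine ⟨chd hδ Z hZ, ?_, ?_, chd_nat hδ Z hZ⟩
  · refine primitive_of (pe_pos hδ hZ) _ fun p hp hpd => ?_
    obtain ⟨n, hn1, hn2⟩ := exists_neg_one hδ hZ hp hpd
    refine ⟨n, hn1, ?_⟩
    rw [chd_nat, hn2]
    norm_num
  · rw [inv_eq_iff_mul_eq_one]
    ext a
    rw [MulChar.mul_apply, MulChar.one_apply_coe]
    have h : ((a : ZMod (pe δ Z)).val : ZMod (pe δ Z)) = a := ZMod.natCast_zmod_val _
    rw [← h, chd_nat]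
    have hne : ch δ Z (((a : ZMod (pe δ Z)).val : ℕ) : ℤ) ≠ 0 := by
      intro h0
      have h1 := chd_nat hδ Z hZ (a : ZMod (pe δ Z)).val
      rw [h, h0] at h1
      have h2 : IsUnit (chd hδ Z hZ (a : ZMod (pe δ Z))) := a.isUnit.map (chd hδ Z hZ)
      rw [h1] at h2
      simp at h2
    rcases ch_tri δ Z (((a : ZMod (pe δ Z)).val : ℕ) : ℤ) with h1 | h1 | h1
    · exact absurd h1 hne
    · rw [h1]; norm_num
    · rw [h1]; norm_num

end Pool.Agent.XW.MT
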