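import Pool.Agent.XW.MT.Stm
import Pool.Agent.XV.MT.LEN

/-!
Project XW: the `L`-function of the quadratic twist of `X_0(15)` by an even fundamental
discriminant `4 d` in the form of the frozen statement (port of `XV/MT/LEN.lean`).
-/

set_option autoImplicit false
set_option linter.style.haveILetI false

open Complex Filter Topology Set UpperHalfPlane MatrixGroups CongruenceSubgroup ZMod

namespace Pool.Agent.XW.MT

namespace LENe

open Pool.Agent.XW
open Pool.Agent.XV (E15)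
open Pool.Agent.XV.MT (II fac S_MIN S_PCARD)
open Pool.Agent.XV.MT.LEN
open Pool.Agent.W97.MT (affCount ap)
open Pool.Agent.Z700 (un)

theorem cnt_twist' (A B : ℤ) {d : ℤ} (p : ℕ) [Fact p.Prime] (hp : p ≠ 2)
    (hpD : ¬ p ∣ d.natAbs) :
    (p : ℤ) - cnt (A * d ^ 2) (B * d ^ 3) p = jacobiSym d p * ((p : ℤ) - cnt A B p) := by
  have hpp : p.Prime := Fact.out
  have hM0 : (d : ZMod p) ≠ 0 := by
    intro h
    rw [ZMod.intCast_zmod_eq_zero_iff_dvd] at h
    exact hpD (Int.natCast_dvd.1 h)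
  rw [cnt_eq _ _ p hp, cnt_eq _ _ p hp]
  have h5 : quadraticChar (ZMod p) (d : ZMod p) = jacobiSym d p := by
    have h6 : quadraticChar (ZMod p) (d : ZMod p) = legendreSym p d := rfl
    rw [h6, jacobiSym.legendreSym.to_jacobiSym]
  rw [← h5, mul_neg, Finset.mul_sum]
  congr 1
  symm
  refine Fintype.sum_equiv (Equiv.mulLeft₀ (d : ZMod p) hM0) _ _ fun x => ?_
  have h4 : quadraticChar (ZMod p) (d : ZMod p) = quadraticChar (ZMod p) ((d : ZMod p) ^ 3) := by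
    rw [pow_succ, map_mul, quadraticChar_sq_one' hM0, one_mul]
  rw [h4, ← map_mul, Equiv.mulLeft₀_apply]
  congr 1
  push_cast
  ring

theorem md_dt {δ : ℤ} (hδ : Dt δ) : md δ 2 = 4 ∨ md δ 2 = 8 := by
  unfold md
  rcases hδ with rfl | rfl | rfl <;> simp

theorem md_cop {δ : ℤ} (hδ : Dt δ) {p : ℕ} (hp : p.Prime) (h3 : p ≠ 3) (h5 : p ≠ 5) :
    Nat.Coprime (md δ p) 15 := by
  by_cases h2 : p = 2
  · subst h2
    rcases md_dt hδ with h | h <;> rw [h] <;> norm_num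
  · unfold md
    rw [if_neg h2, Nat.Prime.coprime_iff_not_dvd hp]
    intro h
    have h1 : p ∣ 3 * 5 := by simpa using h
    rcases (Nat.Prime.dvd_mul hp).1 h1 with h | h
    · exact h3 ((Nat.prime_dvd_prime_iff_eq hp Nat.prime_three).1 h)
    · exact h5 ((Nat.prime_dvd_prime_iff_eq hp (by norm_num)).1 h)

theorem pe_cop {δ : ℤ} (hδ : Dt δ) {Z : Finset ℕ} (hZ : Pe Z) : Nat.Coprime (pe δ Z) 15 := by
  unfold pe
  exact Nat.Coprime.prod_left fun p hp => md_cop hδ (hZ p hp).1 (hZ p hp).2.1 (hZ p hp).2.2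

theorem md_ne {δ : ℤ} (hδ : Dt δ) {p : ℕ} (hp : p.Prime) : md δ p ≠ 0 := by
  by_cases h2 : p = 2
  · subst h2
    rcases md_dt hδ with h | h <;> rw [h] <;> norm_num
  · unfold md
    rw [if_neg h2]
    exact hp.ne_zero

theorem pe_ne {δ : ℤ} (hδ : Dt δ) {Z : Finset ℕ} (hZ : Pe Z) : pe δ Z ≠ 0 := by
  unfold pe
  exact Finset.prod_ne_zero_iff.2 fun p hp => md_ne hδ (hZ p hp).1

theorem two_dvd_pe {δ : ℤ} (hδ : Dt δ) {Z : Finset ℕ} (h2 : 2 ∈ Z) : 2 ∣ pe δ Z := by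
  unfold pe
  have h1 : md δ 2 ∣ ∏ p ∈ Z, md δ p := Finset.dvd_prod_of_mem _ h2
  refine dvd_trans ?_ h1
  rcases md_dt hδ with h | h <;> rw [h] <;> norm_num

theorem sg_pm {δ : ℤ} {Z : Finset ℕ} {d : ℤ} (h : 4 * d = sg δ Z * pe δ Z)
    (hs : sg δ Z = 1 ∨ sg δ Z = -1) : 4 * d.natAbs = pe δ Z := by
  rcases hs with h1 | h1 <;> rw [h1] at h <;> omega

theorem dvd_iff {δ : ℤ} {Z : Finset ℕ} {d : ℤ} (h : 4 * d.natAbs = pe δ Z) {p : ℕ} (hp : p.Prime)
    (h2 : p ≠ 2) : p ∣ pe δ Z ↔ p ∣ d.natAbs := by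
  rw [← h, hp.dvd_mul]
  constructor
  · rintro (h1 | h1)
    · exfalso
      have h3 : p ∣ 2 ^ 2 := by simpa using h1
      exact h2 ((Nat.prime_dvd_prime_iff_eq hp Nat.prime_two).1 (hp.dvd_of_dvd_pow h3))
    · exact h1
  · exact Or.inr

section

variable {δ : ℤ} {Z : Finset ℕ}

/-- the values of the character -/
theorem ch_pm {χ : DirichletCharacter ℂ (pe δ Z)} (hinv : χ⁻¹ = χ)
    (hv : ∀ n : ℕ, χ (n : ZMod (pe δ Z)) = ((ch δ Z n : ℤ) : ℂ)) {n : ℕ}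
    (hn : Nat.Coprime n (pe δ Z)) : ch δ Z n = 1 ∨ ch δ Z n = -1 := by
  have hu : IsUnit (n : ZMod (pe δ Z)) := (ZMod.isUnit_iff_coprime n _).2 hn
  have h1 : χ (n : ZMod (pe δ Z)) * χ (n : ZMod (pe δ Z)) = 1 := by
    have h2 : (χ⁻¹ * χ) (n : ZMod (pe δ Z)) = 1 := by
      rw [inv_mul_cancel]
      exact MulChar.one_apply hu
    rw [hinv, MulChar.mul_apply] at h2
    exact h2
  rw [hv] at h1
  have h3 : ch δ Z n * ch δ Z n = 1 := by exact_mod_cast h1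
  exact mul_self_eq_one_iff.1 h3

theorem ch_zero {χ : DirichletCharacter ℂ (pe δ Z)}
    (hv : ∀ n : ℕ, χ (n : ZMod (pe δ Z)) = ((ch δ Z n : ℤ) : ℂ)) {n : ℕ}
    (hn : ¬ Nat.Coprime n (pe δ Z)) : ch δ Z n = 0 := by
  have hu : ¬ IsUnit (n : ZMod (pe δ Z)) := fun h => hn ((ZMod.isUnit_iff_coprime n _).1 h)
  have h1 := χ.map_nonunit hu
  rw [hv] at h1
  exact_mod_cast h1

end

theorem sg_eq {δ : ℤ} (hδ : Dt δ) {Z : Finset ℕ} (hZ : Pe Z) : sg δ Z = 1 ∨ sg δ Z = -1 := by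
  classical
  unfold sg ch
  refine Finset.prod_induction _ (fun x : ℤ => x = 1 ∨ x = -1) ?_ (Or.inl rfl) ?_
  · rintro a b (rfl | rfl) (rfl | rfl) <;> simp
  · intro p hp
    unfold sy
    by_cases h2 : p = 2
    · rw [if_pos h2]
      unfold c2
      rcases hδ with rfl | rfl | rfl
      · right; rw [if_pos rfl]; decide
      · left; rw [if_neg (by norm_num), if_pos rfl]; decide
      · right; rw [if_neg (by norm_num), if_neg (by norm_num)]; decide
    · rw [if_neg h2]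
      refine jacobiSym.eq_one_or_neg_one ?_
      simp

open Classical in
theorem exists_fe (hche : S_CHE) (hrec : S_REC) (hmin : S_MIN) (hP : S_PCARD) (hLf : XLe)
    {δ : ℤ} (hδ : Dt δ) {Z : Finset ℕ} (hZ : Pe Z) (h2 : 2 ∈ Z) {D : ℤ}
    (hD : 4 * D = sg δ Z * pe δ Z) :
    ∃ (f : ℂ → ℂ) (g1 : ℂ), Differentiable ℂ f ∧
      (∀ s : ℂ, (3 : ℝ) / 2 < s.re →
        HasProd (fun p : {p : ℕ // p.Prime ∧
            ¬ ((p : ℤ) ∣ 2 * (4 * (-12987 * D ^ 2) ^ 3 + 27 * (-263466 * D ^ 3) ^ 2))} =>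
          fac (-12987 * D ^ 2) (-263466 * D ^ 3) s p) (f s)) ∧
      (g1 ≠ 0 → f 1 ≠ 0) ∧
      ∃ τ : ℂ, τ * g1 = ∑ a ∈ un (pe δ Z), ((ch δ Z a : ℤ) : ℂ) * II ((a : ℚ) / pe δ Z) := by
  have hprime : ∀ p ∈ Z, p.Prime := fun p hp => (hZ p hp).1
  obtain ⟨χ, hχp, hχi, hχv⟩ := hche δ hδ Z hprime h2
  have hrec' := hrec δ hδ Z hprime h2 D hD
  have hsg := sg_eq hδ hZ
  have hDM := sg_pm hD hsg
  have h15 := pe_cop hδ hZ
  have hM0 := pe_ne hδ hZ
  have h2M := two_dvd_pe hδ h2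
  have hpm : ∀ m : ℕ, Nat.Coprime m (pe δ Z) → ch δ Z m = 1 ∨ ch δ Z m = -1 := fun m hm =>
    ch_pm hχi hχv hm
  have hz : ∀ p : ℕ, p.Prime → p ∣ pe δ Z → ch δ Z p = 0 := by
    intro p hpp hpM
    refine ch_zero hχv ?_
    rw [Nat.Prime.coprime_iff_not_dvd hpp]
    exact fun h => h hpM
  have hd : ∀ {p : ℕ}, p.Prime → p ≠ 2 → (p ∣ pe δ Z ↔ p ∣ D.natAbs) := fun hp hp2 =>
    dvd_iff hDM hp hp2
  obtain ⟨M, hM⟩ : ∃ M : ℕ, M = pe δ Z := ⟨_, rfl⟩
  haveI : NeZero (pe δ Z) := ⟨hM0⟩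
  obtain ⟨g, hg1, hg2, hg3⟩ := hLf (pe δ Z) h15 χ hχp
  have hc3 := hpm 3 (Nat.Coprime.coprime_dvd_right (by norm_num) h15).symm
  have hc5 := hpm 5 (Nat.Coprime.coprime_dvd_right (by norm_num) h15).symm
  set x3 := ch δ Z ((3 : ℕ) : ℤ) with hx3
  set x5 := ch δ Z ((5 : ℕ) : ℤ) with hx5
  refine ⟨fun s => g s * (bf x3 3 s * bf x5 5 s), g 1,
    hg1.mul ((bf_diff x3 (by norm_num)).mul (bf_diff x5 (by norm_num))), ?_, ?_, ?_⟩
  · intro s hs
    have hs' : 3 / 2 < s.re := hs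
    have e1 := hg2 s hs'
    -- the finite product
    set p3 : Nat.Primes := ⟨3, Nat.prime_three⟩ with hp3
    set p5 : Nat.Primes := ⟨5, by norm_num⟩ with hp5
    have n35 : p3 ≠ p5 := by rw [hp3, hp5]; intro h; have := congrArg Subtype.val h; simp at this
    set k : Nat.Primes → ℂ := fun p => if p ∈ ({p3, p5} : Finset Nat.Primes) then
      bf (ch δ Z ((p : ℕ) : ℤ)) p s else 1 with hk
    have e2 : HasProd k (∏ p ∈ ({p3, p5} : Finset Nat.Primes), k p) :=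
      hasProd_prod_of_ne_finset_one (fun p hp => if_neg hp)
    have e3 : ∏ p ∈ ({p3, p5} : Finset Nat.Primes), k p = bf x3 3 s * bf x5 5 s := by
      rw [Finset.prod_insert (by simp [n35]), Finset.prod_singleton]
      simp only [hk]
      rw [if_pos (by simp), if_pos (by simp)]
    rw [e3] at e2
    have e4 := e1.mul e2
    refine hasProd_transfer _ _ _ ?_
    refine (congrArg (fun g => HasProd g _) (funext fun p => ?_)).mp e4
    have hpp : (p : ℕ).Prime := p.2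
    have hF : (1 - (ap E15 p : ℂ) * χ ((p : ℕ) : ZMod (pe δ Z)) * ((p : ℕ) : ℂ) ^ (-s) +
          (if (p : ℕ) ∣ 15 then 0 else ((p : ℕ) : ℂ)) * (χ ((p : ℕ) : ZMod (pe δ Z))) ^ 2 *
            ((p : ℕ) : ℂ) ^ (-2 * s)) = bf (ch δ Z ((p : ℕ) : ℤ)) p s := by
      unfold bf
      rw [hχv]
    rw [hF]
    have hs1 : 1 < s.re := by linarith
    by_cases hin : p ∈ ({p3, p5} : Finset Nat.Primes)
    · have hk1 : k p = bf (ch δ Z ((p : ℕ) : ℤ)) p s := if_pos hin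
      rw [hk1]
      simp only [Finset.mem_insert, Finset.mem_singleton] at hin
      have hbad : ((p : ℕ) : ℤ) ∣ 2 * (4 * (-12987 * D ^ 2) ^ 3 + 27 * (-263466 * D ^ 3) ^ 2) := by
        rw [good_iff hpp]
        rcases hin with rfl | rfl
        · exact Or.inr (Or.inl rfl)
        · exact Or.inr (Or.inr (Or.inl rfl))
      rw [if_neg (not_not.2 hbad)]
      refine inv_mul_cancel₀ ?_
      rcases hin with rfl | rfl
      · exact bf3_ne' hmin hc3 hs1
      · exact bf5_ne' hmin hc5 hs1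
    · have hk1 : k p = 1 := if_neg hin
      rw [hk1, mul_one]
      simp only [Finset.mem_insert, Finset.mem_singleton, not_or] at hin
      have q3 : (p : ℕ) ≠ 3 := fun h => hin.1 (Subtype.ext h)
      have q5 : (p : ℕ) ≠ 5 := fun h => hin.2 (Subtype.ext h)
      by_cases hpM : (p : ℕ) ∣ pe δ Z
      · have hbad : ((p : ℕ) : ℤ) ∣ 2 * (4 * (-12987 * D ^ 2) ^ 3 + 27 * (-263466 * D ^ 3) ^ 2) := by
          rw [good_iff hpp]
          by_cases q2 : (p : ℕ) = 2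
          · exact Or.inl q2
          · exact Or.inr (Or.inr (Or.inr ((hd hpp q2).1 hpM)))
        rw [if_neg (not_not.2 hbad), hz p hpp hpM]
        unfold bf
        simp
      · have q2 : (p : ℕ) ≠ 2 := by
          intro h
          rw [h] at hpM
          exact hpM h2M
        have hpD : ¬ (p : ℕ) ∣ D.natAbs := fun h => hpM ((hd hpp q2).2 h)
        have hgood : ¬ ((p : ℕ) : ℤ) ∣ 2 * (4 * (-12987 * D ^ 2) ^ 3 +
            27 * (-263466 * D ^ 3) ^ 2) := by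
          rw [good_iff hpp]
          push Not
          exact ⟨q2, q3, q5, hpD⟩
        rw [if_pos hgood]
        haveI : Fact (p : ℕ).Prime := ⟨hpp⟩
        have hx := hpm p ((Nat.Prime.coprime_iff_not_dvd hpp).2 hpM)
        have hx2 : ((ch δ Z ((p : ℕ) : ℤ) : ℤ) : ℂ) ^ 2 = 1 := by
          rcases hx with h | h <;> rw [h] <;> norm_num
        have h15' : ¬ (p : ℕ) ∣ 15 := by
          intro h
          have h1 : (p : ℕ) ∣ 3 * 5 := by simpa using h
          rcases (Nat.Prime.dvd_mul hpp).1 h1 with h2 | h2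
          · exact q3 ((Nat.prime_dvd_prime_iff_eq hpp Nat.prime_three).1 h2)
          · exact q5 ((Nat.prime_dvd_prime_iff_eq hpp (by norm_num)).1 h2)
        unfold bf fac
        congr 1
        rw [hx2, if_neg h15', mul_one, p_cpow hpp.ne_zero]
        have h5 := cnt_twist' (-12987) (-263466) (d := D) p q2 hpD
        rw [cnt_E15 hP p hpp q2 q3, ← hrec' p hpp q2 hpM] at h5
        have h6 : (((p : ℕ) : ℤ) - (Nat.card {q : ZMod p × ZMod p //
                  q.2 ^ 2 = q.1 ^ 3 + ((-12987 * D ^ 2 : ℤ) : ZMod p) * q.1 +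
                    ((-263466 * D ^ 3 : ℤ) : ZMod p)} : ℤ)) =
                ch δ Z ((p : ℕ) : ℤ) * ap E15 p := h5
        rw [h6]
        push_cast
        ring
  · intro hg
    exact mul_ne_zero hg (mul_ne_zero (bf3_ne hmin hc3) (bf5_ne hmin hc5))
  · refine ⟨gaussSum χ⁻¹ (stdAddChar (N := pe δ Z)), ?_⟩
    have e : ∑ a ∈ un (pe δ Z), ((ch δ Z a : ℤ) : ℂ) * II ((a : ℚ) / pe δ Z) =
        ∑ u : (ZMod (pe δ Z))ˣ, ((ch δ Z ((u : ZMod (pe δ Z)).val : ℕ) : ℤ) : ℂ) *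
          II (((u : ZMod (pe δ Z)).val : ℚ) / pe δ Z) :=
      sum_rrC (M := pe δ Z) (fun a => ((ch δ Z a : ℤ) : ℂ) * II ((a : ℚ) / pe δ Z))
    rw [hg3, hχi, e]
    refine Finset.sum_congr rfl fun u _ => ?_
    rw [← hχv, ZMod.natCast_zmod_val]

end LENe

open LENe
open Pool.Agent.XW
open Pool.Agent.XV.MT (II fac S_MIN S_PCARD)
open Pool.Agent.Z700 (un)

theorem t_LENe : S_LENe := by
  intro hche hrec hmin hP hLf δ hδ Z hZ h2 D hD sp sm Op Om hOp hOm hs hne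
  obtain ⟨f, g1, hf1, hf2, hf3, τ, hτ⟩ := exists_fe hche hrec hmin hP hLf hδ hZ h2 hD
  refine ⟨f, hf1, hf2, hf3 ?_⟩
  rintro rfl
  rw [mul_zero] at hτ
  have h2 : ((SS sp δ Z : ℤ) : ℂ) * Op + ((SS sm δ Z : ℤ) : ℂ) * Om * Complex.I = 0 := by
    have h3 : (4 : ℂ) * ∑ a ∈ un (pe δ Z), ((ch δ Z a : ℤ) : ℂ) * II ((a : ℚ) / pe δ Z) =
        ((SS sp δ Z : ℤ) : ℂ) * Op + ((SS sm δ Z : ℤ) : ℂ) * Om * Complex.I := by
      unfold SS
      push_cast
      rw [Finset.mul_sum, Finset.sum_mul, Finset.sum_mul, Finset.sum_mul,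
        ← Finset.sum_add_distrib]
      refine Finset.sum_congr rfl fun a _ => ?_
      have := hs ((a : ℚ) / pe δ Z)
      linear_combination ((ch δ Z a : ℤ) : ℂ) * this
    rw [← h3, ← hτ, mul_zero]
  have h3 := congrArg Complex.re h2
  have h4' := congrArg Complex.im h2
  simp at h3 h4'
  have h5 : SS sp δ Z = 0 := by
    rcases h3 with h3 | h3
    · exact_mod_cast h3
    · exact absurd h3 hOp.ne'
  have h6 : SS sm δ Z = 0 := by
    rcases h4' with h4' | h4'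
    · exact_mod_cast h4'
    · exact absurd h4' hOm.ne'
  rcases hne with h | h
  · exact h h5
  · exact h h6

end Pool.Agent.XW.MT
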