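import Mathlib
import Pool.Agent.XW.MT.Chs

/-!
# Quadratic reciprocity for the even discriminants
-/

set_option autoImplicit false

namespace Pool.Agent.XW.MT

open Pool.Agent.XW Finset

namespace REC

/-- The signed prime. -/
def qs (q : ℕ) : ℤ := if q % 4 = 1 then (q : ℤ) else -(q : ℤ)

theorem jac_qs {q p : ℕ} (hq : q % 2 = 1) (hp : p % 2 = 1) : jacobiSym (qs q) p = jacobiSym p q := by
  have hodd : Odd p := Nat.odd_iff.2 hp
  unfold qs
  split_ifs with h
  · rw [jacobiSym.quadratic_reciprocity_one_mod_four h hodd]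
  · have h4 : q % 4 = 3 := by omega
    rw [← neg_one_mul, jacobiSym.mul_left, jacobiSym.at_neg_one hodd]
    rcases (by omega : p % 4 = 1 ∨ p % 4 = 3) with h5 | h5
    · rw [ZMod.χ₄_nat_one_mod_four h5, one_mul]
      have h6 := jacobiSym.quadratic_reciprocity_one_mod_four h5 (b := q) (Nat.odd_iff.2 (by omega))
      exact h6.symm
    · rw [ZMod.χ₄_nat_three_mod_four h5, jacobiSym.quadratic_reciprocity_three_mod_four h4 h5]
      ring

theorem qs_eq {q : ℕ} (hq : q % 2 = 1) : jacobiSym (-1) q * (q : ℤ) = qs q := by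
  unfold qs
  rw [jacobiSym.at_neg_one (Nat.odd_iff.2 hq)]
  split_ifs with h
  · rw [ZMod.χ₄_nat_one_mod_four h, one_mul]
  · rw [ZMod.χ₄_nat_three_mod_four (by omega)]
    ring

theorem jac_prod (s : Finset ℕ) (f : ℕ → ℤ) (p : ℕ) :
    jacobiSym (∏ q ∈ s, f q) p = ∏ q ∈ s, jacobiSym (f q) p := by
  induction s using Finset.induction_on with
  | empty => rw [Finset.prod_empty, Finset.prod_empty, jacobiSym.one_left]
  | insert a t ha ih => rw [Finset.prod_insert ha, Finset.prod_insert ha, jacobiSym.mul_left, ih]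

end REC

open REC

theorem t_REC : S_REC := by
  intro δ hδ Z hZ h2 d hd p hp hp2 _
  have hpo : p % 2 = 1 := Nat.odd_iff.1 (hp.odd_of_ne_two hp2)
  have hpodd : Odd p := Nat.odd_iff.2 hpo
  have hZo : ∀ q ∈ Z.erase 2, q % 2 = 1 := fun q hq => by
    have h3 := Finset.mem_erase.1 hq
    exact Nat.odd_iff.1 ((hZ q h3.2).odd_of_ne_two h3.1)
  have e1 : sg δ Z * (pe δ Z : ℤ) = δ * ∏ q ∈ Z.erase 2, qs q := by
    have h3 : sg δ Z * (pe δ Z : ℤ) = ∏ q ∈ Z, sy δ q (-1) * (md δ q : ℤ) := by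
      unfold sg ch pe
      rw [Nat.cast_prod, ← Finset.prod_mul_distrib]
    rw [h3, ← Finset.mul_prod_erase Z _ h2]
    congr 1
    · unfold sy md c2
      rw [if_pos rfl, if_pos rfl]
      rcases hδ with rfl | rfl | rfl
      · rw [if_pos rfl]
        decide
      · rw [if_neg (by norm_num), if_pos rfl]
        decide
      · rw [if_neg (by norm_num), if_neg (by norm_num)]
        decide
    · refine Finset.prod_congr rfl fun q hq => ?_
      have h3 := Finset.mem_erase.1 hq
      unfold sy md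
      rw [if_neg h3.1, if_neg h3.1]
      exact qs_eq (hZo q hq)
  have e2 : ∏ q ∈ Z.erase 2, sy δ q (p : ℤ) = ∏ q ∈ Z.erase 2, jacobiSym (qs q) p := by
    refine Finset.prod_congr rfl fun q hq => ?_
    have h3 := Finset.mem_erase.1 hq
    unfold sy
    rw [if_neg h3.1, jac_qs (hZo q hq) hpo]
  rw [e1] at hd
  unfold ch
  rw [← Finset.mul_prod_erase Z _ h2, e2, ← jac_prod]
  obtain ⟨Q, hQ⟩ : ∃ Q, Q = ∏ q ∈ Z.erase 2, qs q := ⟨_, rfl⟩
  rw [← hQ] at hd ⊢
  have e3 : sy δ 2 (p : ℤ) = c2 δ (p : ℤ) := by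
    unfold sy
    rw [if_pos rfl]
  rw [e3]
  unfold c2
  rcases hδ with rfl | rfl | rfl
  · rw [if_pos rfl]
    have h4 : d = (-1) * Q := by linarith
    rw [h4, jacobiSym.mul_left, jacobiSym.at_neg_one hpodd, Int.cast_natCast]
  · rw [if_neg (by norm_num), if_pos rfl]
    have h4 : d = 2 * Q := by linarith
    rw [h4, jacobiSym.mul_left, jacobiSym.at_two hpodd, Int.cast_natCast]
  · rw [if_neg (by norm_num), if_neg (by norm_num)]
    have h4 : d = (-2) * Q := by linarith
    rw [h4, jacobiSym.mul_left, jacobiSym.at_neg_two hpodd, Int.cast_natCast]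

end Pool.Agent.XW.MT
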