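import Pool.Agent.XV.MT.All
import Pool.Agent.XW.MT.LENe
import Pool.Agent.XW.MT.CHE
import Pool.Agent.XW.MT.REC

/-!
Project XW, job XW-17: the twisted `L`-function for the even discriminants, assembled.
-/

set_option autoImplicit false

namespace Pool.Agent.XW.MT

/-- G2e without any hypothesis: if one of the two sums of the modular symbols of the even
discriminant `4 d` does not vanish, the `L`-function of the curve with the coefficients
`-12987 d^2`, `-263466 d^3` is entire and does not vanish at `1`. -/
theorem t_G2e : S_G2e :=
  t_LENe t_CHE t_REC Pool.Agent.XV.MT.t_MIN Pool.Agent.XV.MT.t_PCARD Pool.Agent.XV.MT.a_xl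

end Pool.Agent.XW.MT
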