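import Pool.Agent.XW.MT.Chs
import Pool.Agent.XV.MT.Sk

/-!
Project XW, the modular side for the even discriminants: statements.
`4 d = sg δ Z * pe δ Z` is the fundamental discriminant, `ch δ Z` its Kronecker symbol.
-/

set_option autoImplicit false

namespace Pool.Agent.XW.MT

open Pool.Agent.XW
open Pool.Agent.XV (E15)
open Pool.Agent.XV.MT (II fac S_MIN S_PCARD)
open Pool.Agent.W97.MT (ap)

/-- the twisted `L`-functions (this is `Pool.Agent.XV.MT.a_xl`) -/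
def XLe : Prop := ∀ (q : ℕ) [NeZero q], Nat.Coprime q 15 → ∀ χ : DirichletCharacter ℂ q,
  χ.IsPrimitive →
    ∃ g : ℂ → ℂ, Differentiable ℂ g ∧
      (∀ s : ℂ, 3 / 2 < s.re → HasProd (fun p : Nat.Primes =>
        (1 - (ap E15 p : ℂ) * χ p * (p : ℂ) ^ (-s) +
          (if (p : ℕ) ∣ 15 then 0 else (p : ℂ)) * (χ p) ^ 2 * (p : ℂ) ^ (-2 * s))⁻¹) (g s)) ∧
      gaussSum χ⁻¹ (ZMod.stdAddChar (N := q)) * g 1 =
        ∑ u : (ZMod q)ˣ, χ⁻¹ (u : ZMod q) * II (((u : ZMod q).val : ℚ) / q)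

/-- G2e: non-vanishing of the central value if one of the sums of the symbols does not vanish -/
def S_G2e : Prop := ∀ δ : ℤ, Dt δ → ∀ Z : Finset ℕ, Pe Z → 2 ∈ Z → ∀ d : ℤ,
  4 * d = sg δ Z * pe δ Z → ∀ (sp sm : ℚ → ℤ) (Op Om : ℝ), 0 < Op → 0 < Om →
  (∀ r : ℚ, (4 : ℂ) * II r = sp r * Op + sm r * Om * Complex.I) →
  (SS sp δ Z ≠ 0 ∨ SS sm δ Z ≠ 0) →
  ∃ f : ℂ → ℂ, Differentiable ℂ f ∧
      (∀ s : ℂ, (3 : ℝ) / 2 < s.re →
        HasProd (fun p : {p : ℕ // p.Prime ∧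
            ¬ ((p : ℤ) ∣ 2 * (4 * (-12987 * d ^ 2) ^ 3 + 27 * (-263466 * d ^ 3) ^ 2))} =>
          fac (-12987 * d ^ 2) (-263466 * d ^ 3) s p) (f s)) ∧ f 1 ≠ 0

/-- LENe -/
def S_LENe : Prop := S_CHE → S_REC → S_MIN → S_PCARD → XLe → S_G2e

end Pool.Agent.XW.MT
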